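import Mathlib

open MeasureTheory Set Cardinal

namespace Pool.Agent.Results.MP_547692_lc.Equiv

/-- Naively Haar null subsets of an additive group with a measurable structure. -/
def NaiveNull {H : Type} [AddGroup H] [MeasurableSpace H] (X : Set H) : Prop :=
  ∃ μ : Measure H, IsProbabilityMeasure μ ∧ ∀ g h : H, μ ((fun x => g + x + h) '' X) = 0

/-- The least cardinality of a set of reals of positive outer Lebesgue measure. -/
noncomputable def nonN : Cardinal := sInf {c | ∃ A : Set ℝ, volume A ≠ 0 ∧ #A = c}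

/-- For the real line, a set of size non(N) whose square is not naively Haar null exists exactly
when non(N) is the continuum; every set of size below the continuum is naively Haar null. -/
theorem joined : ((∃ S : Set ℝ, #S = nonN ∧ ¬ NaiveNull (S ×ˢ S)) ↔ nonN = continuum) ∧
    ∀ S : Set ℝ, #S < continuum → NaiveNull S ∧ NaiveNull (S ×ˢ S) := by
  classical
  have uq : ∀ d : ℕ → ℤ, (∀ n, |d n| ≤ 2) → HasSum (fun n => (d n : ℝ) * (1 / 4) ^ n) 0 →
      ∀ n, d n = 0 := by
    intro d hd h n
    induction n using Nat.strong_induction_on with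
    | _ n ih =>
    have h1 := (hasSum_nat_add_iff' (n + 1)).mpr h
    rw [Finset.sum_range_succ, Finset.sum_eq_zero fun i hi => by
      simp [ih i (Finset.mem_range.mp hi)]] at h1
    have h2 := (hasSum_geometric_of_lt_one (r := (1 / 4 : ℝ)) (by norm_num)
      (by norm_num)).mul_left (2 * (1 / 4) ^ (n + 1))
    have h3 := h1.norm_le_of_bounded h2 fun i => by
      have : |(d (i + (n + 1)) : ℝ)| ≤ 2 := by exact_mod_cast hd _
      rw [norm_mul, Real.norm_eq_abs, Real.norm_of_nonneg (by positivity), pow_add, mul_assoc,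
        mul_comm (_ ^ i)]
      gcongr
    rw [zero_add, zero_sub, norm_neg, norm_mul, Real.norm_eq_abs,
      Real.norm_of_nonneg (by positivity), pow_succ] at h3
    have p : (0 : ℝ) < (1 / 4) ^ n := by positivity
    have h4 : |(d n : ℝ)| < 1 := by nlinarith
    exact Int.abs_lt_one_iff.mp (by exact_mod_cast h4)
  obtain ⟨ix, ii⟩ := exists_injective_nat (List Bool)
  let p : (ℕ → Bool) → ℕ → ℕ := fun u m => ix (List.ofFn fun i : Fin m => u i)
  have pi : ∀ u v m n, p u m = p v n → m = n ∧ ∀ i < m, u i = v i := fun u v m n h => by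
    have h1 := ii h
    obtain rfl : m = n := by simpa using congrArg List.length h1
    exact ⟨rfl, fun i hi => congrFun (List.ofFn_injective h1) ⟨i, hi⟩⟩
  have pj : ∀ u, Function.Injective (p u) := fun u m n h => (pi u u m n h).1
  let dg : (ℕ → Bool) → (ℕ → Bool) → ℕ → ℤ := fun u a =>
    Function.extend (p u) (fun m => if a m then 1 else 0) 0
  have d01 : ∀ u a i, 0 ≤ dg u a i ∧ dg u a i ≤ 1 := fun u a i => by
    by_cases h : ∃ m, p u m = i
    · obtain ⟨m, rfl⟩ := h
      simp only [dg, (pj u).extend_apply]; split_ifs <;> norm_num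
    · simp [dg, Function.extend_apply' _ _ _ h]
  have nb : ∀ u a i, ‖(dg u a i : ℝ) * (1 / 4) ^ i‖ ≤ (1 / 4) ^ i := fun u a i => by
    have : |(dg u a i : ℝ)| ≤ 1 := by exact_mod_cast abs_le.mpr ⟨by linarith [d01 u a i], (d01 u a i).2⟩
    rw [norm_mul, Real.norm_eq_abs, Real.norm_of_nonneg (by positivity)]
    exact mul_le_of_le_one_left (by positivity) this
  have sg := summable_geometric_of_lt_one (r := (1 / 4 : ℝ)) (by norm_num) (by norm_num)
  let φ : (ℕ → Bool) → (ℕ → Bool) → ℝ := fun u a => ∑' i, (dg u a i : ℝ) * (1 / 4) ^ i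
  have hs : ∀ u a, HasSum (fun i => (dg u a i : ℝ) * (1 / 4) ^ i) (φ u a) := fun u a =>
    (Summable.of_norm_bounded sg (nb u a)).hasSum
  have cφ : ∀ u, Continuous (φ u) := fun u => by
    refine continuous_tsum (fun i => Continuous.mul ?_ continuous_const) sg fun i a => nb u a i
    by_cases h : ∃ m, p u m = i
    · obtain ⟨m, rfl⟩ := h
      simp only [dg, (pj u).extend_apply]
      exact (continuous_of_discreteTopology
        (f := fun b : Bool => (((if b then 1 else 0 : ℤ)) : ℝ))).comp (continuous_apply m)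
    · simp only [dg, Function.extend_apply' _ _ _ h]
      exact continuous_const
  have key : ∀ u v a b c d, φ u a - φ u b = φ v c - φ v d → {m | a m ≠ b m}.Infinite → u = v := by
    intro u v a b c d h hi
    have := uq (fun i => dg u a i - dg u b i - (dg v c i - dg v d i)) (fun i => by
      have := d01 u a i; have := d01 u b i; have := d01 v c i; have := d01 v d i
      rw [abs_le]; constructor <;> omega) (by
        have := ((hs u a).sub (hs u b)).sub ((hs v c).sub (hs v d))
        rw [h, sub_self] at this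
        simpa only [Int.cast_sub, sub_mul] using this)
    funext i
    obtain ⟨m, hm, him⟩ := hi.exists_gt i
    have h1 := this (p u m)
    by_cases h2 : ∃ n, p v n = p u m
    · obtain ⟨n, hn⟩ := h2
      exact (pi _ _ _ _ hn.symm).2 i him
    · simp only [dg, (pj u).extend_apply, Function.extend_apply' _ _ _ h2] at h1
      replace hm : a m ≠ b m := hm
      revert hm h1
      cases a m <;> cases b m <;> simp
  have main : ∀ S : Set ℝ, #S < continuum → ∃ ν : Measure ℝ, IsProbabilityMeasure ν ∧
      ∀ t, ν ((fun x => t + x) '' S) = 0 := by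
    intro S hS
    let B : S × S → Set (ℕ → Bool) := fun q =>
      {u | ∃ a b, φ u a - φ u b = q.1 - q.2 ∧ {m | a m ≠ b m}.Infinite}
    have hB : ∀ q, (B q).Subsingleton := fun q u ⟨a, b, h, hi⟩ v ⟨c, d, h', _⟩ =>
      key u v a b c d (h.trans h'.symm) hi
    have hc : #(⋃ q, B q) < continuum := by
      refine (mk_iUnion_le_sum_mk.trans (sum_le_sum _ (fun _ => ℵ₀) fun q =>
        (hB q).countable.le_aleph0)).trans_lt ?_
      rw [sum_const']
      simp only [mk_prod, lift_id]
      exact mul_lt_of_lt aleph0_le_continuum (mul_lt_of_lt aleph0_le_continuum hS hS)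
        aleph0_lt_continuum
    obtain ⟨u, hu⟩ : ∃ u, u ∉ ⋃ q, B q := by
      by_contra h
      push Not at h
      rw [eq_univ_of_forall h] at hc
      simp at hc
    let g := PolishSpace.measurableEquivNatBoolOfNotCountable (α := ℝ) not_countable
    have mg : Measurable fun y => φ u (g y) := (cφ u).measurable.comp g.measurable
    have pr : IsProbabilityMeasure (volume.restrict (Icc (0 : ℝ) 1)) := ⟨by simp⟩
    refine ⟨(volume.restrict (Icc 0 1)).map fun y => φ u (g y),
      Measure.isProbabilityMeasure_map mg.aemeasurable, fun t => ?_⟩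
    have ct : {a | φ u a ∈ (fun x => t + x) '' S}.Countable := by
      rcases eq_empty_or_nonempty {a | φ u a ∈ (fun x => t + x) '' S} with h | ⟨b, y, hy, e⟩
      · rw [h]; exact countable_empty
      refine (Set.countable_ofPred_finite_subset (s := (univ : Set ℕ)) countable_univ).image
        (fun T m => if m ∈ T then !b m else b m) |>.mono ?_
      rintro a ⟨x, hx, e'⟩
      refine ⟨{m | a m ≠ b m}, ⟨not_infinite.mp fun hi => hu (mem_iUnion.mpr
        ⟨(⟨x, hx⟩, ⟨y, hy⟩), a, b, by rw [← e, ← e']; ring, hi⟩), subset_univ _⟩, funext fun m => ?_⟩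
      simp only [mem_ofPred_eq]
      split_ifs with h
      · exact (Bool.eq_not_iff.mpr h).symm
      · exact (not_not.mp h).symm
    have c2 := ct.image (φ u)
    refine measure_mono_null (t := (range (φ u))ᶜ ∪ φ u '' {a | φ u a ∈ (fun x => t + x) '' S})
      (fun y hy => (em _).symm.imp id fun ⟨a, h⟩ => ⟨a, by rwa [mem_ofPred_eq, h], h⟩) ?_
    rw [Measure.map_apply mg ((isCompact_range (cφ u)).measurableSet.compl.union c2.measurableSet)]
    refine measure_mono_null (t := g ⁻¹' {a | φ u a ∈ (fun x => t + x) '' S}) ?_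
      ((ct.preimage g.injective).measure_zero _)
    rintro y (h | ⟨a, h, e⟩)
    · exact (h ⟨_, rfl⟩).elim
    · show φ u (g y) ∈ (fun x => t + x) '' S
      rwa [← show φ u a = φ u (g y) from e]
  have small : ∀ S : Set ℝ, #S < continuum → NaiveNull S ∧ NaiveNull (S ×ˢ S) := fun S hS => by
    obtain ⟨ν, _, h⟩ := main S hS
    refine ⟨⟨ν, ‹_›, fun a b => by simpa only [add_right_comm a] using h (a + b)⟩,
      ν.prod ν, inferInstance, fun a b => ?_⟩
    refine measure_mono_null (t := ((fun x => a.1 + b.1 + x) '' S) ×ˢ Set.univ) ?_ (by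
      rw [Measure.prod_prod, h, zero_mul])
    rintro _ ⟨x, hx, rfl⟩
    exact ⟨⟨x.1, hx.1, by simp [add_right_comm]⟩, trivial⟩
  refine ⟨⟨fun ⟨S, h1, h2⟩ => ?_, fun h => ⟨univ, by simp [h, mk_real], fun ⟨μ, _, hμ⟩ => ?_⟩⟩, small⟩
  · by_contra h
    exact h2 (small S (lt_of_le_of_ne ((mk_set_le S).trans mk_real.le) (h1 ▸ h))).2
  · simpa using hμ 0 0

theorem result : (∃ S : Set ℝ, #S = nonN ∧ ¬ NaiveNull (S ×ˢ S)) ↔ nonN = continuum := joined.1

end Pool.Agent.Results.MP_547692_lc.Equiv
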